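import Pool.Agent.H38.WT.Targets

/-!
# Row EXC of the board `wt_modules`: the cycle exchanges the two conditions
-/

set_option autoImplicit false

namespace Pool.Agent.H68.WT

open Pool.Agent.H38.WT

theorem pf_EXC : T_EXC := by
  intro m F j K σ hjK hσ
  have hinv : ∀ z, σ.symm (σ z) = z := fun z => σ.symm_apply_apply z
  have hinv' : ∀ z, σ (σ.symm z) = z := fun z => σ.apply_symm_apply z
  have hC : ∀ z, z ∈ K ∩ {x | x ≤ j} → σ z ∈ K ∩ {x | x ≤ j} := by
    intro z hz
    by_contra h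
    have h1 := hσ.fix _ h
    have h2 := σ.injective h1
    rw [h2] at h
    exact h hz
  have hC' : ∀ z, z ∈ K ∩ {x | x ≤ j} → σ.symm z ∈ K ∩ {x | x ≤ j} := by
    intro z hz
    by_contra h
    have h1 := hσ.fix _ h
    rw [hinv'] at h1
    rw [← h1] at h
    exact h hz
  have hsub : ∀ G : Set (Fin m), σ '' G ⊆ K ↔ G ⊆ K := by
    intro G
    constructor
    · intro h z hz
      by_cases hzC : z ∈ K ∩ {x | x ≤ j}
      · exact hzC.1
      · have h1 := hσ.fix _ hzC
        have h2 := h ⟨z, hz, rfl⟩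
        rwa [h1] at h2
    · rintro h _ ⟨z, hz, rfl⟩
      by_cases hzC : z ∈ K ∩ {x | x ≤ j}
      · exact (hC z hzC).1
      · rw [hσ.fix _ hzC]
        exact h hz
  have hmem : ∀ (G : Set (Fin m)) (z : Fin m), z ∈ σ '' G ↔ σ.symm z ∈ G := by
    intro G z
    constructor
    · rintro ⟨a, ha, rfl⟩
      rwa [hinv]
    · intro h
      exact ⟨_, h, hinv' z⟩
  constructor
  · rintro H1 _ ⟨G, hG, rfl⟩ hK
    have hGK := (hsub G).1 hK
    constructor
    · intro x hx y hy hxy hyj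
      have hxK := hK hx
      have hxC : x ∈ K ∩ {x | x ≤ j} := ⟨hxK, (hxy.trans hyj).le⟩
      have hyC : y ∈ K ∩ {x | x ≤ j} := ⟨hy, hyj.le⟩
      rw [hmem] at hx ⊢
      exact H1 G hG hGK _ hx _ (hC' y hyC).1 (hσ.mono x hxC y hyC hxy hyj) (hC' y hyC).2
    · intro hj y hy hyj
      have hyC : y ∈ K ∩ {x | x ≤ j} := ⟨hy, hyj.le⟩
      rw [hmem] at hj ⊢
      have h1 := hσ.low _ (hC' y hyC)
      have h2 : σ.symm j ≠ σ.symm y := fun h => hyj.ne' (σ.symm.injective h)
      exact H1 G hG hGK _ hj _ (hC' y hyC).1 (lt_of_le_of_ne h1 h2) (hC' y hyC).2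
  · intro H2 G hG hGK a ha b hb hab hbj
    have haC : a ∈ K ∩ {x | x ≤ j} := ⟨hGK ha, hab.le.trans hbj⟩
    have hbC : b ∈ K ∩ {x | x ≤ j} := ⟨hb, hbj⟩
    obtain ⟨h1, h2⟩ := H2 (σ '' G) ⟨G, hG, rfl⟩ ((hsub G).2 hGK)
    have hne : σ a ≠ σ b := fun h => hab.ne (σ.injective h)
    have hfin : σ b ∈ σ '' G → b ∈ G := by
      intro h
      rw [hmem, hinv] at h
      exact h
    apply hfin
    have hia : σ a ∈ σ '' G := ⟨a, ha, rfl⟩
    by_cases hij : σ a = j
    · rw [hij] at hia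
      have hkj : σ b ≠ j := fun h => hne (hij.trans h.symm)
      exact h2 hia _ (hC b hbC).1 (lt_of_le_of_ne (hC b hbC).2 hkj)
    · have hkj : σ b ≠ j := by
        intro h
        have h3 := hσ.low a haC
        rw [← h, hinv] at h3
        exact absurd hab (not_lt.2 h3)
      have hk' : σ b < j := lt_of_le_of_ne (hC b hbC).2 hkj
      have hi' : σ a < j := lt_of_le_of_ne (hC a haC).2 hij
      have hik : σ a < σ b := by
        rcases lt_or_gt_of_ne hne with h | h
        · exact h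
        · have h3 := hσ.mono _ (hC b hbC) _ (hC a haC) h hi'
          rw [hinv, hinv] at h3
          exact absurd hab h3.asymm
      exact h1 _ hia _ (hC b hbC).1 hik hk'

end Pool.Agent.H68.WT
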