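import Pool.Agent.H38.WT.Targets

/-!
# Row REL of the board `wt_modules`: relabeling
-/

set_option autoImplicit false

namespace Pool.Agent.H68.WT

open Pool.Agent.H38.WT

/-- the isomorphism of a graph with the relabeled graph -/
def riso {m : ℕ} (σ : Equiv.Perm (Fin m)) (U : SimpleGraph (Fin m)) : U ≃g rel σ U where
  toEquiv := σ
  map_rel_iff' := by
    intro a b
    show U.Adj (σ.symm (σ a)) (σ.symm (σ b)) ↔ U.Adj a b
    rw [σ.symm_apply_apply, σ.symm_apply_apply]

/-- the isomorphism of the induced graphs -/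
def risoI {m : ℕ} (σ : Equiv.Perm (Fin m)) (U : SimpleGraph (Fin m)) (G : Set (Fin m)) :
    U.induce G ≃g (rel σ U).induce (σ '' G) where
  toEquiv := σ.image G
  map_rel_iff' := by
    intro a b
    show U.Adj (σ.symm (σ a)) (σ.symm (σ b)) ↔ U.Adj a b
    rw [σ.symm_apply_apply, σ.symm_apply_apply]

theorem pre_iff {m : ℕ} (σ : Equiv.Perm (Fin m)) (U : SimpleGraph (Fin m)) (G : Set (Fin m)) :
    (U.induce G).Preconnected ↔ ((rel σ U).induce (σ '' G)).Preconnected :=
  (risoI σ U G).preconnected_iff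

theorem cut_iff {m : ℕ} (σ : Equiv.Perm (Fin m)) (U : SimpleGraph (Fin m)) (G : Set (Fin m)) :
    IsCut U G ↔ IsCut (rel σ U) (σ '' G) := by
  unfold IsCut
  rw [← pre_iff σ U G, ← Set.image_compl_eq σ.bijective, ← pre_iff σ U Gᶜ, Set.image_nonempty,
    Set.image_nonempty]

theorem pf_REL : T_REL := by
  intro m U σ
  refine ⟨?_, ?_, ?_⟩
  · exact (riso σ U).isTree_iff.symm
  · ext H
    constructor
    · intro h
      refine ⟨σ.symm '' H, ?_, ?_⟩
      · show IsCut U (σ.symm '' H)
        rw [cut_iff σ U, ← Set.image_comp]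
        have e : (⇑σ ∘ ⇑σ.symm) '' H = H := by
          have : (⇑σ ∘ ⇑σ.symm) = id := by
            funext z
            exact σ.apply_symm_apply z
          rw [this, Set.image_id]
        rw [e]
        exact h
      · rw [← Set.image_comp]
        have : (⇑σ ∘ ⇑σ.symm) = id := by
          funext z
          exact σ.apply_symm_apply z
        rw [this, Set.image_id]
    · rintro ⟨G, hG, rfl⟩
      exact (cut_iff σ U G).1 hG
  · ext a b
    show U.Adj (σ.symm (σ.symm.symm a)) (σ.symm (σ.symm.symm b)) ↔ U.Adj a b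
    rw [Equiv.symm_symm, σ.symm_apply_apply, σ.symm_apply_apply]

end Pool.Agent.H68.WT
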